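import Pool.Agent.H76.CW.StmtC

/-!
# Board cw_modules, module TYP: a piece which misses the additional blocks
-/

set_option autoImplicit false

open Set Pool.Agent.TK Pool.Agent.H71.VK

namespace Pool.Agent.CW

namespace TYP

variable {C ι : Type} {M : St (C × ℕ)} {B : ι → Set ℕ} {z : ι → List ℕ} {R : ι → St (C × ℕ)}
  {Δ : Set ι}

/-- answers to a list -/
theorem ext_list
    (hmem : ∀ (r : Rk) (p p' : List (ℕ × ℕ)), (∀ q ∈ p', q ∈ p) → Ps M B z R Δ r p →
      Ps M B z R Δ r p')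
    (hext : ∀ (f : ℕ → Rk) (p : List (ℕ × ℕ)), Ps M B z R Δ (Rk.sup f) p → ∀ m,
      (∀ a, ∃ a', Ps M B z R Δ (f m) ((a, a') :: p)) ∧
      ∀ a', ∃ a, Ps M B z R Δ (f m) ((a, a') :: p)) (r : Rk) :
    ∀ (x : List ℕ) (p : List (ℕ × ℕ)), Ps M B z R Δ (Rk.sucN x.length r) p →
      ∃ y : List ℕ, y.length = x.length ∧ Ps M B z R Δ r (x.zip y ++ p)
  | [], p, h => ⟨[], rfl, h⟩
  | a :: x, p, h => by
    obtain ⟨a', ha'⟩ := (hext (fun _ => Rk.sucN x.length r) p h 0).1 a
    obtain ⟨y, hy, h1⟩ := ext_list hmem hext r x _ ha'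
    refine ⟨a' :: y, by simp [hy], hmem _ _ _ ?_ h1⟩
    intro q hq
    simp only [List.zip_cons_cons, List.cons_append, List.mem_cons, List.mem_append] at hq ⊢
    tauto

/-- adding diagonal pairs -/
theorem add_diag
    (hadd : ∀ (r : Rk) (p : List (ℕ × ℕ)) (x : ℕ), Ps M B z R Δ r p → (∀ i ∈ Δ, x ∉ B i) →
      Ps M B z R Δ r ((x, x) :: p)) (r : Rk) (p : List (ℕ × ℕ)) (hp : Ps M B z R Δ r p) :
    ∀ x : List ℕ, (∀ a ∈ x, ∀ i ∈ Δ, a ∉ B i) →
      Ps M B z R Δ r (x.map (fun a => (a, a)) ++ p)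
  | [], _ => hp
  | a :: x, h => hadd _ _ _ (add_diag hadd r p hp x fun b hb => h b (List.mem_cons_of_mem _ hb))
      (h a List.mem_cons_self)

end TYP

theorem pf_TYP {C : Type} (hMEM : T_MEM C) (hCOM : T_COM C) (hPSE : T_PSE C) : T_TYP C := by
  classical
  intro ι c0 n b M B z R hRA T T' hTT π hVd hdisj
  obtain ⟨hnil, hrle, hmem, hadd, hext⟩ := hPSE ι c0 n b M B z R hRA (T \ T')
  have hbf := hCOM ι c0 n b M B z R hRA T T' hTT
  have h0 : Ps M B z R (T \ T') (Rk.lim (Rk.lim om2)) [] :=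
    hrle _ _ _ hRA.base (by simpa [dg] using hnil [] (by simp))
  have h1 : Ps M B z R (T \ T') (Rk.sucN (dl π).length (Rk.lim om2)) [] :=
    hrle _ _ _ (RLe.lim' _ _) h0
  obtain ⟨y, hy, hp⟩ := TYP.ext_list hmem hext _ _ _ h1
  rw [List.append_nil] at hp
  set p : List (ℕ × ℕ) := (dl π).zip y with hpdef
  have hex : ∀ a, ∃ a', a ∈ dl π → (a, a') ∈ p := by
    intro a
    by_cases ha : a ∈ dl π
    · obtain ⟨j, hj, hja⟩ := List.mem_iff_getElem.mp ha
      have hj' : j < y.length := by rw [hy]; exact hj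
      refine ⟨y[j], fun _ => ?_⟩
      rw [hpdef, List.mem_iff_getElem]
      refine ⟨j, by simp [hy, hj], ?_⟩
      rw [List.getElem_zip, hja]
    · exact ⟨0, fun h => absurd h ha⟩
  choose h hh using hex
  have hp2 : Ps M B z R (T \ T') om2 p := hrle _ _ _ (RLe.lim _) hp
  have hV := (hMEM _ _ π h p (hbf _ _ hp2) hh).1.1 hVd
  have hnot : ∀ x ∈ st (bn (rp M B z R T)) π, ∀ i ∈ T \ T', x ∉ B i := fun x hx i hi hxB =>
    Set.disjoint_left.mp (hdisj i hi.1 hi.2) hxB hx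
  have hset : st (bn (rp M B z R T')) (mp h π) = st (bn (rp M B z R T)) π := by
    ext x
    by_cases hx : ∀ i ∈ T \ T', x ∉ B i
    · have h2 := hrle _ _ _ (RLe.lim om2) (hadd _ _ _ hp hx)
      exact ((hMEM _ _ π h _ (hbf _ _ h2) fun a ha => List.mem_cons_of_mem _ (hh a ha)).2 (x, x)
        List.mem_cons_self).symm
    · push Not at hx
      obtain ⟨i, hi, hxi⟩ := hx
      constructor
      · intro hx'
        exfalso
        obtain ⟨a, ha⟩ := (hext _ _ hp 0).2 x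
        have ha2 : Ps M B z R (T \ T') om2 ((a, x) :: p) := ha
        have h3 : a ∈ B i := (ha2.2.1 (a, x) List.mem_cons_self i hi).2 hxi
        have h4 : a ∈ st (bn (rp M B z R T)) π :=
          ((hMEM _ _ π h _ (hbf _ _ ha2) fun a ha => List.mem_cons_of_mem _ (hh a ha)).2 (a, x)
            List.mem_cons_self).2 hx'
        exact hnot a h4 i hi h3
      · intro hx'
        exact absurd hxi (hnot x hx' i hi)
  refine ⟨mp h π, hV, hset, id, ?_, ?_, ?_⟩
  · rw [zl_mp, List.length_map]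
  · rw [hset]
    exact Set.bijOn_id _
  · intro x hx
    have h5 := TYP.add_diag hadd _ _ hp x fun a ha => hnot a (hx a ha)
    refine PI.mono (bf_PI (hbf _ _ h5)) ?_
    intro q hq
    rw [List.mem_append] at hq ⊢
    rcases hq with hq | hq
    · right
      rw [zl_mp, List.zip_map_right, ← dg_eq_zip, List.mem_map] at hq
      obtain ⟨a, ha, rfl⟩ := hq
      obtain ⟨ha1, ha2⟩ := mem_dg.mp ha
      have h6 := hh a.1 (zl_sub_dl π ha2)
      rw [Prod.map_apply', id_eq, ← ha1]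
      exact h6
    · exact Or.inl hq

end Pool.Agent.CW
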