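import Pool.Agent.H71.CW.Wid

/-!
# Board cwf_modules, module W4: the induction step
-/

set_option autoImplicit false

open Set

namespace Pool.Agent.CW

private theorem w4_step (c : ℕ → ℕ → ℕ) (k : ℕ) (U : Ultrafilter ℕ) (N : Set (Set ℕ)) (D : Set ℕ)
    (P : ℕ → Finset ℕ) (Y : Finset ℕ) (S : Set ℕ) (hS : S ∈ U) (E : ℕ → Finset ℕ)
    (hE : ∀ n ∈ S, MW c k (Finset.range n) (E n) ∧ E n ⊆ P n ∧ (Y ∩ E n).Nonempty ∧ Y ∩ E n ≠ Y)
    (hN : D \ {z | {n | z ∈ E n} ∈ U} ∈ N) :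
    ∃ (P' : ℕ → Finset ℕ) (Y' : Finset ℕ), Y' ⊆ Y ∧ Y'.Nonempty ∧
      Y'.card < Y.card ∧ {n | MW c k (Finset.range n) (P' n) ∧ Y ∩ P' n = Y' ∧
        P' n ⊆ P n} ∈ U ∧ D \ {z | {n | z ∈ P' n} ∈ U} ∈ N := by
  have h1 : (⋃ Z ∈ (↑Y.powerset : Set (Finset ℕ)), {n | Y ∩ E n = Z}) ∈ U := by
    refine Filter.mem_of_superset Filter.univ_mem fun n _ => ?_
    simp
  rw [Ultrafilter.finite_biUnion_mem_iff (Finset.finite_toSet _)] at h1
  obtain ⟨Y', hY', h2⟩ := h1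
  obtain ⟨n, hn, hn'⟩ := U.nonempty_of_mem (Filter.inter_mem hS h2)
  have hn'' : Y ∩ E n = Y' := hn'
  refine ⟨E, Y', Finset.mem_powerset.mp hY', hn'' ▸ (hE n hn).2.2.1,
    Finset.card_lt_card ?_, ?_, hN⟩
  · rw [← hn'']
    exact Finset.ssubset_iff_subset_ne.mpr ⟨Finset.inter_subset_left, (hE n hn).2.2.2⟩
  · filter_upwards [hS, h2] with m hm hm'
    exact ⟨(hE m hm).1, hm', (hE m hm).2.1⟩

theorem pf_W4 (h1 : W1) (h2 : W2) (h3 : W3) : W4 := by
  classical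
  intro c k U hU N D hI hD hdec P Y hYD hYne hdf hS hP
  by_cases hcard : Y.card ≤ k + 1
  · exact Or.inl hcard
  right
  push Not at hcard
  set S : Set ℕ := {n | MW c k (Finset.range n) (P n) ∧ Y ⊆ P n} with hSdef
  have hex : ∀ n, ∃ A B : Finset ℕ, n ∈ S → (MW c k (Finset.range n) A ∧
      MW c k (Finset.range n) B ∧ MW c k (Finset.range n) (A ∪ B) ∧ Disjoint A B ∧
      A ∪ B ⊆ P n ∧ Y ⊆ A ∪ B ∧ (Y ∩ A).Nonempty ∧ (Y ∩ B).Nonempty) := by
    intro n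
    by_cases hn : n ∈ S
    · obtain ⟨A, B, h⟩ := h2 c k _ _ hn.1 Y hn.2 (by omega)
      exact ⟨A, B, fun _ => h⟩
    · exact ⟨∅, ∅, fun h => absurd h hn⟩
  choose A B hAB using hex
  have hfew : ∀ E : ℕ → Finset ℕ, (∀ n ∈ S, MW c k (Finset.range n) (E n)) →
      Few c (k + 1) {z | {n | z ∈ E n} ∈ U}ᶜ {z | {n | z ∈ E n} ∈ U} := by
    intro E hE
    refine h3 c (k + 1) U hU E ?_
    filter_upwards [hS] with n hn
    exact (h1 c k _ _ (hE n hn)).2.2
  have hLfew := hfew (fun n => A n ∪ B n) fun n hn => (hAB n hn).2.2.1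
  rcases hdec _ hLfew with hL | hL
  · exfalso
    obtain ⟨f, hf⟩ := hLfew
    obtain ⟨y, hy, y', hy', hne, hfy⟩ := Finset.exists_ne_map_eq_of_card_lt_of_maps_to
      (s := Y) (t := Finset.univ) (f := f) (by simpa using hcard) (fun _ _ => Finset.mem_univ _)
    have hYL : ∀ y ∈ Y, y ∈ {z | {n | z ∈ A n ∪ B n} ∈ U} := by
      intro y hy
      refine Filter.mem_of_superset hS fun n hn => ?_
      exact (hAB n hn).2.2.2.2.2.1 hy
    refine hdf y hy y' hy' hne (hI.sub _ hL _ ?_)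
    rintro z ⟨hzD, hz⟩
    refine ⟨hzD, ?_⟩
    by_contra hzL
    exact hz (hf y (hYL y hy) y' (hYL y' hy') hfy z hzL)
  · have key : ∀ X Z : Finset ℕ, Disjoint X Z → (Y ∩ Z).Nonempty → Y ∩ X ≠ Y := by
      intro X Z hXZ hne heq
      obtain ⟨y, hy⟩ := hne
      rw [Finset.mem_inter] at hy
      have h4 : y ∈ Y ∩ X := by rw [heq]; exact hy.1
      exact Finset.disjoint_left.mp hXZ (Finset.mem_inter.mp h4).2 hy.2
    rcases hdec _ (hfew A fun n hn => (hAB n hn).1) with hA | hA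
    · rcases hdec _ (hfew B fun n hn => (hAB n hn).2.1) with hB | hB
      · exfalso
        refine hD (hI.sub _ (hI.un _ (hI.un _ hA _ hB) _ hL) _ ?_)
        intro x hx
        by_cases hxL : x ∈ {z | {n | z ∈ A n ∪ B n} ∈ U}
        · have h5 : {n | x ∈ A n} ∪ {n | x ∈ B n} ∈ U := by
            refine Filter.mem_of_superset hxL fun n hn => ?_
            exact Finset.mem_union.mp hn
          rcases Ultrafilter.union_mem_iff.mp h5 with h6 | h6
          · exact Or.inl (Or.inl ⟨hx, h6⟩)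
          · exact Or.inl (Or.inr ⟨hx, h6⟩)
        · exact Or.inr ⟨hx, hxL⟩
      · refine w4_step c k U N D P Y S hS B (fun n hn => ?_) hB
        obtain ⟨a1, a2, a3, a4, a5, a6, a7, a8⟩ := hAB n hn
        exact ⟨a2, Finset.subset_union_right.trans a5, a8, key _ _ a4.symm a7⟩
    · refine w4_step c k U N D P Y S hS A (fun n hn => ?_) hA
      obtain ⟨a1, a2, a3, a4, a5, a6, a7, a8⟩ := hAB n hn
      exact ⟨a1, Finset.subset_union_left.trans a5, a7, key _ _ a4 a8⟩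

end Pool.Agent.CW
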